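import Pool.Agent.H80.L.R_pool_sql_team_seeded_63374d34.N314.OP.Dir

/-!
# Nearly contractive compact perturbations of the identity

If `‖1 - K‖ ≤ 1 + ε ^ 2 ‖K‖` with a compact operator `K ≠ 0`, then the resolvent
`R = (1 + l K)⁻¹`, `l = 1 / (ε ‖K‖)`, is again a compact perturbation of the identity, its norm is
close to one and it is close to zero at some unit vector in the range of `K`.
-/

set_option autoImplicit false

namespace Pool.Agent.N314.OP

open Filter Topology Module.End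

variable {E : Type*} [NormedAddCommGroup E] [NormedSpace ℝ E]

/-- the resolvent -/
lemma res_exists [CompleteSpace E] {K : E →L[ℝ] E} (hK : IsCompactOperator K) {l κ : ℝ}
    (hl : 0 < l) (hκ : 0 < κ) (h : ∀ x, κ * ‖x‖ ≤ ‖x + l • K x‖) :
    ∃ R : E →L[ℝ] E, (∀ x, R x + l • K (R x) = x) ∧ (∀ x, R (x + l • K x) = x) ∧
      ∀ x, ‖R x‖ ≤ ‖x‖ / κ := by
  have hμ : (-(1 / l) : ℝ) ≠ 0 := by
    rw [neg_ne_zero]
    positivity
  have hres : (-(1 / l) : ℝ) ∈ resolventSet ℝ K := by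
    refine (hK.hasEigenvalue_or_mem_resolventSet hμ).resolve_left fun hev => ?_
    obtain ⟨x, hx⟩ := hev.exists_hasEigenvector
    have h1 : K x = (-(1 / l) : ℝ) • x := hx.apply_eq_smul
    have h2 := h x
    have h3 : x + l • K x = 0 := by
      rw [h1, smul_smul]
      have : l * -(1 / l) = -1 := by field_simp
      rw [this, neg_one_smul, add_neg_cancel]
    rw [h3, norm_zero] at h2
    have h4 : 0 < ‖x‖ := norm_pos_iff.2 hx.2
    have : 0 < κ * ‖x‖ := by positivity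
    linarith
  rw [spectrum.mem_resolventSet_iff] at hres
  obtain ⟨u, hu⟩ := hres
  have hux : ∀ x, (u : E →L[ℝ] E) x = (-(1 / l) : ℝ) • (x + l • K x) := by
    intro x
    rw [hu]
    have e1 : (algebraMap ℝ (E →L[ℝ] E) (-(1 / l)) - K) x = (-(1 / l) : ℝ) • x - K x := by
      rw [Algebra.algebraMap_eq_smul_one]
      rfl
    rw [e1, smul_add, smul_smul]
    have : -(1 / l) * l = -1 := by field_simp
    rw [this, neg_one_smul, sub_eq_add_neg]
  have hi1 : ∀ x, (↑u⁻¹ : E →L[ℝ] E) ((u : E →L[ℝ] E) x) = x := by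
    intro x
    have := congrArg (fun A : E →L[ℝ] E => A x) (Units.inv_mul u)
    exact this
  have hi2 : ∀ x, (u : E →L[ℝ] E) ((↑u⁻¹ : E →L[ℝ] E) x) = x := by
    intro x
    have := congrArg (fun A : E →L[ℝ] E => A x) (Units.mul_inv u)
    exact this
  set R : E →L[ℝ] E := (-(1 / l) : ℝ) • (↑u⁻¹ : E →L[ℝ] E) with hR
  have hRx : ∀ x, R x = (-(1 / l) : ℝ) • (↑u⁻¹ : E →L[ℝ] E) x := fun x => rfl
  have hr1 : ∀ x, R x + l • K (R x) = x := by
    intro x
    have e1 : R x + l • K (R x) =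
        (-(1 / l) : ℝ) • ((↑u⁻¹ : E →L[ℝ] E) x + l • K ((↑u⁻¹ : E →L[ℝ] E) x)) := by
      rw [hRx, map_smul, smul_add, smul_comm l]
    rw [e1, ← hux, hi2]
  have hr2 : ∀ x, R (x + l • K x) = x := by
    intro x
    rw [hRx, ← map_smul, ← hux, hi1]
  refine ⟨R, hr1, hr2, fun x => ?_⟩
  rw [le_div_iff₀ hκ, mul_comm]
  have := h (R x)
  rwa [hr1] at this

/-- the main construction -/
lemma exists_almost_null [CompleteSpace E] {K : E →L[ℝ] E} (hK : IsCompactOperator K) {ε : ℝ}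
    (hε : 0 < ε) (hε1 : ε ≤ 1 / 2) (hK0 : 0 < ‖K‖)
    (h : ‖ContinuousLinearMap.id ℝ E - K‖ ≤ 1 + ε ^ 2 * ‖K‖) :
    ∃ (K' : E →L[ℝ] E) (e : E), IsCompactOperator K' ∧ ‖e‖ = 1 ∧ ‖e - K' e‖ ≤ 6 * ε ∧
      ‖ContinuousLinearMap.id ℝ E - K'‖ ≤ 1 + 2 * ε := by
  set k := ‖K‖ with hk
  set l : ℝ := 1 / (ε * k) with hl
  have hl0 : 0 < l := by positivity
  have hκ : (0 : ℝ) < 1 - ε := by linarith
  have hlow : ∀ x, (1 - ε) * ‖x‖ ≤ ‖x + l • K x‖ := by
    intro x
    have e1 : x + l • K x = (1 + l) • x - l • (x - K x) := by module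
    have e2 : ‖x - K x‖ ≤ (1 + ε ^ 2 * k) * ‖x‖ :=
      ((ContinuousLinearMap.id ℝ E - K).le_opNorm x).trans (by gcongr)
    have e3 := norm_sub_norm_le ((1 + l) • x) (l • (x - K x))
    rw [← e1, norm_smul, norm_smul, Real.norm_of_nonneg hl0.le,
      Real.norm_of_nonneg (by linarith)] at e3
    have e4 : l * ‖x - K x‖ ≤ l * ((1 + ε ^ 2 * k) * ‖x‖) := by gcongr
    have e5 : l * ((1 + ε ^ 2 * k) * ‖x‖) = (l + ε) * ‖x‖ := by
      rw [hl]; field_simp
    linarith
  obtain ⟨R, hR1, hR2, hR3⟩ := res_exists hK hl0 hκ hlow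
  -- a vector almost attaining the norm of `K`
  obtain ⟨y, hy⟩ : ∃ y : E, k / 2 * ‖y‖ < ‖K y‖ := by
    by_contra hcon
    push Not at hcon
    have := K.opNorm_le_bound (by positivity) hcon
    rw [← hk] at this
    linarith
  have hKy : 0 < ‖K y‖ := lt_of_le_of_lt (by positivity) hy
  set e : E := ‖K y‖⁻¹ • K y with he
  have he1 : ‖e‖ = 1 := by
    rw [he, norm_smul, norm_inv, norm_norm, inv_mul_cancel₀ hKy.ne']
  have hRe : ‖R e‖ ≤ 6 * ε := by
    have e1 : l • R (K y) = y - R y := by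
      have := hR2 y
      rw [map_add, map_smul] at this
      rw [eq_sub_iff_add_eq, add_comm]
      exact this
    have e2 : ‖R (K y)‖ ≤ 3 * ‖y‖ / l := by
      rw [le_div_iff₀ hl0]
      have e3 : ‖l • R (K y)‖ ≤ ‖y‖ + ‖y‖ / (1 - ε) := by
        rw [e1]
        exact (norm_sub_le _ _).trans (by gcongr; exact hR3 y)
      rw [norm_smul, Real.norm_of_nonneg hl0.le] at e3
      have e4 : ‖y‖ / (1 - ε) ≤ 2 * ‖y‖ := by
        rw [div_le_iff₀ hκ]
        nlinarith [norm_nonneg y]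
      linarith
    rw [he, map_smul, norm_smul, norm_inv, norm_norm, inv_mul_le_iff₀ hKy]
    refine e2.trans ?_
    have e5 : 3 * ‖y‖ / l = 6 * ε * (k / 2 * ‖y‖) := by
      rw [hl]; field_simp; ring
    rw [e5, mul_comm ‖K y‖]
    gcongr
  refine ⟨l • (K * R), e, ?_, he1, ?_, ?_⟩
  · have h1 : IsCompactOperator (K ∘ R) := hK.comp_clm R
    have h2 := h1.smul l
    exact h2
  · have e1 : e - (l • (K * R)) e = R e := by
      have := hR1 e
      show e - l • K (R e) = R e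
      rw [sub_eq_iff_eq_add]
      exact this.symm
    rw [e1]
    exact hRe
  · refine ContinuousLinearMap.opNorm_le_bound _ (by linarith) fun x => ?_
    have e1 : (ContinuousLinearMap.id ℝ E - l • (K * R)) x = R x := by
      have := hR1 x
      show x - l • K (R x) = R x
      rw [sub_eq_iff_eq_add]
      exact this.symm
    rw [e1]
    refine (hR3 x).trans ?_
    rw [div_le_iff₀ hκ]
    have : 0 ≤ ‖x‖ := norm_nonneg x
    nlinarith [mul_nonneg this (show 0 ≤ ε * (1 - 2 * ε) by nlinarith)]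

/-- **if the identity is not strongly exposed against the compact operators then Opial's condition
holds** -/
lemma opialL_of_seq [CompleteSpace E] (hA : AT E) (hnt : Nontrivial E)
    (h : ∀ c : ℝ, 0 < c → ∃ K : E →L[ℝ] E, IsCompactOperator K ∧
      ‖ContinuousLinearMap.id ℝ E - K‖ < 1 + c * ‖K‖) : OpialL E := by
  obtain ⟨e₀, he₀⟩ : ∃ e : E, ‖e‖ = 1 := exists_norm_eq E zero_le_one
  refine opialL_of_compact hA he₀ fun δ hδ => ?_
  set ε : ℝ := min (1 / 2) (δ / 100) with hε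
  have hε0 : 0 < ε := by positivity
  have hε1 : ε ≤ 1 / 2 := min_le_left _ _
  have hε2 : ε ≤ δ / 100 := min_le_right _ _
  obtain ⟨K, hK, hK1⟩ := h (ε ^ 2) (by positivity)
  have hK0 : 0 < ‖K‖ := by
    rcases (norm_nonneg K).eq_or_lt with h0 | h0
    · exfalso
      rw [← h0, mul_zero, add_zero] at hK1
      have h2 : K = 0 := norm_eq_zero.1 h0.symm
      rw [h2, sub_zero, ContinuousLinearMap.norm_id] at hK1
      exact lt_irrefl _ hK1
    · exact h0
  obtain ⟨K', e, h1, h2, h3, h4⟩ := exists_almost_null hK hε0 hε1 hK0 hK1.le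
  obtain ⟨T, hT⟩ := hA e e₀ h2 he₀ ε hε0
  let Tc : E →L[ℝ] E := (T.toContinuousLinearEquiv : E →L[ℝ] E)
  let Ts : E →L[ℝ] E := (T.symm.toContinuousLinearEquiv : E →L[ℝ] E)
  have hd : ∀ x, (ContinuousLinearMap.id ℝ E - Tc * K' * Ts) x =
      T ((ContinuousLinearMap.id ℝ E - K') (T.symm x)) := by
    intro x
    show x - T (K' (T.symm x)) = T (T.symm x - K' (T.symm x))
    rw [map_sub, T.apply_symm_apply]
  refine ⟨Tc * K' * Ts, ?_, ?_, ?_⟩
  · have e1 : IsCompactOperator (K' ∘ Ts) := h1.comp_clm Ts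
    exact e1.clm_comp Tc
  · have e1 : e₀ - (Tc * K' * Ts) e₀ = T ((ContinuousLinearMap.id ℝ E - K') (T.symm e₀)) :=
      hd e₀
    rw [e1, T.norm_map]
    have e2 : T.symm e₀ = e + (T.symm e₀ - e) := by abel
    have e3 : ‖T.symm e₀ - e‖ < ε := by
      rw [← T.norm_map, map_sub, T.apply_symm_apply, norm_sub_rev]
      exact hT
    rw [e2, map_add]
    refine (norm_add_le _ _).trans ?_
    have e4 : ‖(ContinuousLinearMap.id ℝ E - K') e‖ ≤ 6 * ε := h3
    have e5 : ‖(ContinuousLinearMap.id ℝ E - K') (T.symm e₀ - e)‖ ≤ (1 + 2 * ε) * ε := by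
      refine (ContinuousLinearMap.le_opNorm _ _).trans ?_
      gcongr
    nlinarith
  · refine ContinuousLinearMap.opNorm_le_bound _ (by linarith) fun x => ?_
    rw [hd, T.norm_map]
    refine (ContinuousLinearMap.le_opNorm _ _).trans ?_
    rw [T.symm.norm_map]
    gcongr
    linarith

end Pool.Agent.N314.OP
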